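import Pool.Agent.H83.LI.Targets

/-!
# Theorem (RZ) (MP_c59857_nt), row DLF: the multiples of a prime, filters
-/

set_option autoImplicit false

namespace Pool.Agent.H83.LI

open Finset Pool.Agent.H18.MR Pool.Agent.H93.DE Pool.Agent.H6.N4D Pool.Agent.H93
  Pool.Agent.H93.ES Pool.Agent.H28.NW Pool.Agent.H87.QP

/-- the square of the filtered sequence -/
noncomputable def gs (lam : ℕ → ℝ) (H q : ℕ) (c : ℕ → ℂ) (m : ℕ) : ℝ :=
  ‖∑ h ∈ range (H + 1), c h * ((lam (m + q * h) : ℝ) : ℂ)‖ ^ 2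

lemma gs_nonneg (lam : ℕ → ℝ) (H q : ℕ) (c : ℕ → ℂ) (m : ℕ) : 0 ≤ gs lam H q c m := by
  unfold gs; positivity

lemma gs_le {lam : ℕ → ℝ} (hl : ∀ n, |lam n| ≤ 1) (H q : ℕ) {c : ℕ → ℂ} (hc : ∀ h, ‖c h‖ ≤ 1)
    (m : ℕ) : gs lam H q c m ≤ ((H : ℝ) + 1) ^ 2 := by
  unfold gs
  have h1 : ‖∑ h ∈ range (H + 1), c h * ((lam (m + q * h) : ℝ) : ℂ)‖ ≤ (H : ℝ) + 1 := by
    refine (norm_sum_le _ _).trans ?_
    calc ∑ h ∈ range (H + 1), ‖c h * ((lam (m + q * h) : ℝ) : ℂ)‖
        ≤ ∑ _h ∈ range (H + 1), (1 : ℝ) := by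
          apply sum_le_sum
          intro h _
          rw [norm_mul, Complex.norm_real, Real.norm_eq_abs]
          exact mul_le_one₀ (hc h) (abs_nonneg _) (hl _)
      _ = (H : ℝ) + 1 := by simp
  exact pow_le_pow_left₀ (norm_nonneg _) h1 2

lemma FS_eq (lam : ℕ → ℝ) (H q T n : ℕ) (c : ℕ → ℂ) :
    FS lam H q T n c = (∑ m ∈ Ioc n (n + T), gs lam H q c m) / T := rfl

lemma FS_nonneg (lam : ℕ → ℝ) (H q T n : ℕ) (c : ℕ → ℂ) : 0 ≤ FS lam H q T n c := by
  rw [FS_eq]
  exact div_nonneg (sum_nonneg fun m _ => gs_nonneg _ _ _ _ _) (Nat.cast_nonneg _)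

lemma FS_le {lam : ℕ → ℝ} (hl : ∀ n, |lam n| ≤ 1) (H q T n : ℕ) {c : ℕ → ℂ}
    (hc : ∀ h, ‖c h‖ ≤ 1) : FS lam H q T n c ≤ ((H : ℝ) + 1) ^ 2 := by
  rw [FS_eq]
  refine div_le_of_le_mul₀ (Nat.cast_nonneg _) (by positivity) ?_
  calc ∑ m ∈ Ioc n (n + T), gs lam H q c m ≤ ∑ _m ∈ Ioc n (n + T), ((H : ℝ) + 1) ^ 2 :=
        sum_le_sum fun m _ => gs_le hl H q hc m
    _ = ((H : ℝ) + 1) ^ 2 * T := by simp [mul_comm]

/-- sums over the multiples of `q` -/
lemma sum_mult {q : ℕ} (hq : 0 < q) (a b : ℕ) (g : ℕ → ℝ) :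
    ∑ m ∈ Ioc a b, (if q ∣ m then g m else 0) = ∑ m ∈ Ioc (a / q) (b / q), g (q * m) := by
  rw [← sum_filter]
  apply sum_nbij' (fun m => m / q) (fun m => q * m)
  · intro m hm
    rw [mem_filter, mem_Ioc] at hm
    obtain ⟨⟨h1, h2⟩, k, rfl⟩ := hm
    rw [mem_Ioc]
    show a / q < q * k / q ∧ q * k / q ≤ b / q
    rw [Nat.mul_div_cancel_left k hq]
    exact ⟨(Nat.div_lt_iff_lt_mul hq).2 (by rwa [mul_comm] at h1),
      (Nat.le_div_iff_mul_le hq).2 (by rwa [mul_comm] at h2)⟩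
  · intro m hm
    rw [mem_Ioc] at hm
    rw [mem_filter, mem_Ioc]
    refine ⟨⟨?_, ?_⟩, dvd_mul_right _ _⟩
    · have := (Nat.div_lt_iff_lt_mul hq).1 hm.1
      rwa [mul_comm] at this
    · have := (Nat.le_div_iff_mul_le hq).1 hm.2
      rwa [mul_comm] at this
  · intro m hm
    rw [mem_filter] at hm
    exact Nat.mul_div_cancel' hm.2
  · intro m _
    exact Nat.mul_div_cancel_left m hq
  · intro m hm
    rw [mem_filter] at hm
    rw [Nat.mul_div_cancel' hm.2]

lemma div_add_le {q : ℕ} (hq : 0 < q) (n T : ℕ) : (n + T) / q ≤ n / q + T / q + 1 := by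
  have h1 := Nat.div_add_mod n q
  have h2 := Nat.div_add_mod T q
  have h3 := Nat.mod_lt n hq
  have h4 := Nat.mod_lt T hq
  have h5 : n + T < q * (n / q + T / q + 2) := by
    have : q * (n / q + T / q + 2) = q * (n / q) + q * (T / q) + 2 * q := by ring
    omega
  have h6 := (Nat.div_lt_iff_lt_mul hq).2 (by rwa [mul_comm] at h5)
  omega

lemma le_div_add {q : ℕ} (hq : 0 < q) (n T : ℕ) : n / q + T / q ≤ (n + T) / q :=
  Nat.add_div_le_add_div n T q

lemma EBD_eq (q m : ℕ) : EB.D q m = (if q ∣ m then (q : ℝ) else 0) - 1 := rfl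

/-- the number of the multiples of `q`, weighted -/
lemma sum_D {q : ℕ} (hq : 0 < q) (n T : ℕ) : |∑ m ∈ Ioc n (n + T), EB.D q m| ≤ q := by
  simp only [EBD_eq]
  rw [sum_sub_distrib, sum_mult hq n (n + T) (fun _ => (q : ℝ))]
  simp only [sum_const, Nat.card_Ioc, nsmul_eq_mul, mul_one]
  have h1 := div_add_le hq n T
  have h2 := le_div_add hq n T
  have h3' : ∀ A B C : ℕ, A ≤ B + C + 1 → B + C ≤ A → A - B = C ∨ A - B = C + 1 := by
    intro A B C _ _
    omega
  have h3 : ((n + T) / q - n / q : ℕ) = T / q ∨ ((n + T) / q - n / q : ℕ) = T / q + 1 :=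
    h3' _ _ _ h1 h2
  have h4 := Nat.div_add_mod T q
  have h5 := Nat.mod_lt T hq
  have e : (n + T - n : ℕ) = T := by omega
  rw [e, abs_le]
  rcases h3 with h3 | h3
  · rw [h3]
    have h6 : (T : ℝ) = ((T / q : ℕ) : ℝ) * q + ((T % q : ℕ) : ℝ) := by
      exact_mod_cast (by rw [mul_comm]; exact h4.symm)
    have h7 : ((T % q : ℕ) : ℝ) ≤ q := by exact_mod_cast h5.le
    have h8 : (0 : ℝ) ≤ ((T % q : ℕ) : ℝ) := Nat.cast_nonneg _
    have h9 : (0 : ℝ) ≤ q := Nat.cast_nonneg _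
    constructor <;> linarith
  · rw [h3]
    have h6 : (T : ℝ) = ((T / q : ℕ) : ℝ) * q + ((T % q : ℕ) : ℝ) := by
      exact_mod_cast (by rw [mul_comm]; exact h4.symm)
    have h7 : ((T % q : ℕ) : ℝ) ≤ q := by exact_mod_cast h5.le
    have h8 : (0 : ℝ) ≤ ((T % q : ℕ) : ℝ) := Nat.cast_nonneg _
    push_cast
    constructor <;> linarith

/-- short sums of the absolute values -/
lemma sum_abs_D {q : ℕ} (hq : 0 < q) (b h : ℕ) :
    ∑ m ∈ Ioc b (b + q * h), |EB.D q m| ≤ (q : ℝ) * (2 * h + 1) := by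
  calc ∑ m ∈ Ioc b (b + q * h), |EB.D q m|
      ≤ ∑ m ∈ Ioc b (b + q * h), ((if q ∣ m then (q : ℝ) else 0) + 1) := by
        apply sum_le_sum
        intro m _
        rw [EBD_eq]
        refine (abs_sub _ _).trans ?_
        rw [abs_one]
        gcongr
        split_ifs
        · rw [Nat.abs_cast]
        · simp
    _ = (((b + q * h) / q - b / q : ℕ) : ℝ) * q + q * h := by
        rw [sum_add_distrib, sum_mult hq b (b + q * h) (fun _ => (q : ℝ))]
        simp only [sum_const, Nat.card_Ioc, nsmul_eq_mul, mul_one]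
        congr 1
        have : (b + q * h - b : ℕ) = q * h := by omega
        rw [this]
        push_cast
        ring
    _ ≤ (q : ℝ) * (2 * h + 1) := by
        have h1 := div_add_le hq b (q * h)
        rw [Nat.mul_div_cancel_left h hq] at h1
        have h2 : (((b + q * h) / q - b / q : ℕ) : ℝ) ≤ h + 1 := by
          exact_mod_cast (by omega : (b + q * h) / q - b / q ≤ h + 1)
        have h3 : (0 : ℝ) ≤ q := Nat.cast_nonneg _
        nlinarith

lemma D_add (q m h : ℕ) : EB.D q (m + q * h) = EB.D q m := by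
  rw [EBD_eq, EBD_eq]
  have : (q ∣ m + q * h) ↔ (q ∣ m) := (Nat.dvd_add_iff_left (dvd_mul_right q h)).symm
  simp only [this]

/-- the mixed terms -/
lemma mixed {lam : ℕ → ℝ} (hl : ∀ n, |lam n| ≤ 1) {q : ℕ} (hq : 0 < q) (T n h k : ℕ)
    (hT : 0 < T) :
    |∑ m ∈ Ioc n (n + T), lam (m + q * h) * lam (m + q * h + q * k) * EB.D q m| ≤
      T * |tq lam q T k n| + 2 * (q * (2 * h + 1)) := by
  set u : ℕ → ℝ := fun m => lam m * lam (m + q * k) * EB.D q m with hu
  have e1 : ∑ m ∈ Ioc n (n + T), lam (m + q * h) * lam (m + q * h + q * k) * EB.D q m =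
      ∑ m ∈ Ioc (n + q * h) (n + T + q * h), u m := by
    symm
    apply sum_nbij' (fun m => m - q * h) (fun m => m + q * h)
    · intro m hm; rw [mem_Ioc] at hm ⊢; omega
    · intro m hm; rw [mem_Ioc] at hm ⊢; omega
    · intro m hm; rw [mem_Ioc] at hm; show m - q * h + q * h = m; omega
    · intro m _; simp
    · intro m hm
      rw [mem_Ioc] at hm
      have e : m - q * h + q * h = m := by omega
      have e' : EB.D q (m - q * h) = EB.D q m := by
        rw [← D_add q (m - q * h) h, e]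
      show lam m * lam (m + q * k) * EB.D q m = _
      rw [e, e']
  have hub : ∀ m, |u m| ≤ |EB.D q m| := by
    intro m
    rw [hu]
    simp only
    rw [abs_mul, abs_mul]
    calc |lam m| * |lam (m + q * k)| * |EB.D q m| ≤ 1 * 1 * |EB.D q m| := by
          gcongr
          · exact hl _
          · exact hl _
      _ = _ := by ring
  have e2 : ∑ m ∈ Ioc n (n + T), u m = T * tq lam q T k n := by
    unfold tq
    rw [mul_div_cancel₀ _ (by exact_mod_cast hT.ne')]
  have hb : ∀ b, |∑ m ∈ Ioc b (b + q * h), u m| ≤ (q : ℝ) * (2 * h + 1) := fun b =>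
    ((abs_sum_le_sum_abs _ _).trans (sum_le_sum fun m _ => hub m)).trans (sum_abs_D hq b h)
  rw [e1, sum_two (Nat.le_add_right n T) u, e2]
  have h1 := hb (n + T)
  have h2 := hb n
  calc |(T : ℝ) * tq lam q T k n + ∑ m ∈ Ioc (n + T) (n + T + q * h), u m -
        ∑ m ∈ Ioc n (n + q * h), u m| ≤ |(T : ℝ) * tq lam q T k n| +
        |∑ m ∈ Ioc (n + T) (n + T + q * h), u m| + |∑ m ∈ Ioc n (n + q * h), u m| := by
        refine (abs_sub _ _).trans ?_
        gcongr
        exact abs_add_le _ _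
    _ ≤ T * |tq lam q T k n| + q * (2 * h + 1) + q * (2 * h + 1) := by
        rw [abs_mul, Nat.abs_cast]
        gcongr
    _ = _ := by ring

lemma gs_expand {lam : ℕ → ℝ} (H q : ℕ) (c : ℕ → ℂ) (m : ℕ) :
    gs lam H q c m = (∑ h ∈ range (H + 1), ∑ h' ∈ range (H + 1),
      (c h * starRingEnd ℂ (c h')).re * (lam (m + q * h) * lam (m + q * h'))) := by
  unfold gs
  rw [← Complex.normSq_eq_norm_sq]
  have h1 : (Complex.normSq (∑ h ∈ range (H + 1), c h * ((lam (m + q * h) : ℝ) : ℂ)) : ℂ) =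
      ∑ h ∈ range (H + 1), ∑ h' ∈ range (H + 1),
        (c h * starRingEnd ℂ (c h')) * ((lam (m + q * h) * lam (m + q * h') : ℝ) : ℂ) := by
    rw [Complex.normSq_eq_conj_mul_self, map_sum, sum_mul_sum, sum_comm]
    apply sum_congr rfl
    intro h _
    apply sum_congr rfl
    intro h' _
    rw [map_mul, Complex.conj_ofReal]
    push_cast
    ring
  have h2 := congrArg Complex.re h1
  rw [Complex.ofReal_re] at h2
  rw [h2, Complex.re_sum]
  apply sum_congr rfl
  intro h _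
  rw [Complex.re_sum]
  apply sum_congr rfl
  intro h' _
  rw [Complex.re_mul_ofReal]

/-- Row DLF. -/
theorem pf_DLF : T_DLF := by
  intro H
  refine ⟨8 * ((H : ℝ) + 1) ^ 3, by positivity, ?_⟩
  intro lam q T n c hL hqp hqT hc
  have hq : 0 < q := hqp.pos
  have hT : 0 < T := lt_of_lt_of_le hq hqT
  have hT0 : (0 : ℝ) < T := by exact_mod_cast hT
  have hq0 : (0 : ℝ) < q := by exact_mod_cast hq
  have hl : ∀ n, |lam n| ≤ 1 := fun n => by rcases hL.pm n with h | h <;> rw [h] <;> norm_num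
  have hl2 : ∀ n, lam n * lam n = 1 := fun n => by rcases hL.pm n with h | h <;> rw [h] <;> norm_num
  set G := gs lam H q c with hG
  set G' := gs lam H 1 c with hG'
  have hTq : 0 < T / q := Nat.div_pos hqT hq
  -- the multiples
  have hGG : ∀ m, 1 ≤ m → G (q * m) = G' m := by
    intro m hm
    rw [hG, hG']
    unfold gs
    have : ∑ h ∈ range (H + 1), c h * ((lam (q * m + q * h) : ℝ) : ℂ) =
        -∑ h ∈ range (H + 1), c h * ((lam (m + 1 * h) : ℝ) : ℂ) := by
      rw [← sum_neg_distrib]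
      apply sum_congr rfl
      intro h _
      rw [← mul_add, hL.pr q (m + h) hqp (by omega), one_mul]
      push_cast
      ring
    rw [this, norm_neg]
  have h1 : ∑ m ∈ Ioc n (n + T), G m * (EB.D q m + 1) ≤
      T * FS lam H 1 (T / q) (n / q) c + q * ((H : ℝ) + 1) ^ 2 := by
    have e1 : ∑ m ∈ Ioc n (n + T), G m * (EB.D q m + 1) =
        q * ∑ m ∈ Ioc (n / q) ((n + T) / q), G' m := by
      have e2 : ∀ m ∈ Ioc n (n + T), G m * (EB.D q m + 1) = if q ∣ m then q * G m else 0 := by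
        intro m _
        rw [EBD_eq]
        split_ifs <;> ring
      rw [sum_congr rfl e2, sum_mult hq n (n + T) (fun m => q * G m), mul_sum]
      apply sum_congr rfl
      intro m hm
      rw [mem_Ioc] at hm
      rw [hGG m ((Nat.zero_le _).trans_lt hm.1)]
    rw [e1]
    have h2 : ∑ m ∈ Ioc (n / q) ((n + T) / q), G' m ≤
        ∑ m ∈ Ioc (n / q) (n / q + T / q), G' m + ((H : ℝ) + 1) ^ 2 := by
      calc ∑ m ∈ Ioc (n / q) ((n + T) / q), G' m
          ≤ ∑ m ∈ Ioc (n / q) (n / q + T / q + 1), G' m := by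
            apply sum_le_sum_of_subset_of_nonneg
            · exact Ioc_subset_Ioc_right (div_add_le hq n T)
            · intro m _ _; exact gs_nonneg _ _ _ _ _
        _ = ∑ m ∈ Ioc (n / q) (n / q + T / q), G' m + G' (n / q + T / q + 1) := by
            rw [← sum_Ioc_consecutive G' (Nat.le_add_right (n / q) (T / q)) (Nat.le_succ _)]
            simp
        _ ≤ _ := by
            gcongr
            exact gs_le hl H 1 hc _
    have h3 : ∑ m ∈ Ioc (n / q) (n / q + T / q), G' m =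
        ((T / q : ℕ) : ℝ) * FS lam H 1 (T / q) (n / q) c := by
      rw [FS_eq, mul_div_cancel₀ _ (by exact_mod_cast hTq.ne')]
    have h4 : (q : ℝ) * ((T / q : ℕ) : ℝ) ≤ T := by exact_mod_cast Nat.mul_div_le T q
    have h5 := FS_nonneg lam H 1 (T / q) (n / q) c
    calc (q : ℝ) * ∑ m ∈ Ioc (n / q) ((n + T) / q), G' m
        ≤ q * (((T / q : ℕ) : ℝ) * FS lam H 1 (T / q) (n / q) c + ((H : ℝ) + 1) ^ 2) := by
          rw [← h3]; gcongr
      _ = (q * ((T / q : ℕ) : ℝ)) * FS lam H 1 (T / q) (n / q) c + q * ((H : ℝ) + 1) ^ 2 := by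
          ring
      _ ≤ _ := by gcongr
  -- the rest
  set τ : ℝ := ∑ k ∈ Icc 1 H, |tq lam q T k n| with hτ
  have hτ0 : 0 ≤ τ := sum_nonneg fun k _ => abs_nonneg _
  have hτk : ∀ k, 1 ≤ k → k ≤ H → |tq lam q T k n| ≤ τ := fun k h1 h2 =>
    single_le_sum (f := fun k => |tq lam q T k n|) (fun k _ => abs_nonneg _) (mem_Icc.2 ⟨h1, h2⟩)
  have hS : ∀ h ∈ range (H + 1), ∀ h' ∈ range (H + 1),
      |∑ m ∈ Ioc n (n + T), lam (m + q * h) * lam (m + q * h') * EB.D q m| ≤
        T * τ + 6 * q * ((H : ℝ) + 1) := by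
    intro h hh h' hh'
    rw [mem_range] at hh hh'
    have hHR : (0 : ℝ) ≤ H := Nat.cast_nonneg _
    rcases lt_trichotomy h h' with hlt | heq | hgt
    · have e : ∀ m, lam (m + q * h') = lam (m + q * h + q * (h' - h)) := by
        intro m
        congr 1
        rw [add_assoc, ← mul_add, Nat.add_sub_cancel' hlt.le]
      simp only [e]
      refine (mixed hl hq T n h (h' - h) hT).trans ?_
      have h2 := hτk (h' - h) (by omega) (by omega)
      have h3 : (h : ℝ) ≤ H := by exact_mod_cast (by omega : h ≤ H)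
      have h4 : (T : ℝ) * |tq lam q T (h' - h) n| ≤ T * τ := by gcongr
      nlinarith
    · subst heq
      have e : ∀ m, lam (m + q * h) * lam (m + q * h) * EB.D q m = EB.D q m := by
        intro m; rw [hl2, one_mul]
      simp only [e]
      refine (sum_D hq n T).trans ?_
      have : 0 ≤ T * τ := by positivity
      nlinarith
    · have e : ∀ m, lam (m + q * h) * lam (m + q * h') * EB.D q m =
          lam (m + q * h') * lam (m + q * h' + q * (h - h')) * EB.D q m := by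
        intro m
        rw [add_assoc m (q * h'), ← mul_add, Nat.add_sub_cancel' hgt.le]
        ring
      simp only [e]
      refine (mixed hl hq T n h' (h - h') hT).trans ?_
      have h2 := hτk (h - h') (by omega) (by omega)
      have h3 : (h' : ℝ) ≤ H := by exact_mod_cast (by omega : h' ≤ H)
      have h4 : (T : ℝ) * |tq lam q T (h - h') n| ≤ T * τ := by gcongr
      nlinarith
  have h2 : |∑ m ∈ Ioc n (n + T), G m * EB.D q m| ≤
      ((H : ℝ) + 1) ^ 2 * (T * τ + 6 * q * ((H : ℝ) + 1)) := by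
    have e1 : ∑ m ∈ Ioc n (n + T), G m * EB.D q m = ∑ h ∈ range (H + 1), ∑ h' ∈ range (H + 1),
        (c h * starRingEnd ℂ (c h')).re *
          ∑ m ∈ Ioc n (n + T), lam (m + q * h) * lam (m + q * h') * EB.D q m := by
      rw [hG]
      simp only [gs_expand, sum_mul, mul_sum]
      rw [sum_comm]
      apply sum_congr rfl
      intro h _
      rw [sum_comm]
      apply sum_congr rfl
      intro h' _
      apply sum_congr rfl
      intro m _
      ring
    rw [e1]
    refine (abs_sum_le_sum_abs _ _).trans ?_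
    calc ∑ h ∈ range (H + 1), |∑ h' ∈ range (H + 1), (c h * starRingEnd ℂ (c h')).re *
          ∑ m ∈ Ioc n (n + T), lam (m + q * h) * lam (m + q * h') * EB.D q m|
        ≤ ∑ _h ∈ range (H + 1), ∑ _h' ∈ range (H + 1), (T * τ + 6 * q * ((H : ℝ) + 1)) := by
          apply sum_le_sum
          intro h hh
          refine (abs_sum_le_sum_abs _ _).trans ?_
          apply sum_le_sum
          intro h' hh'
          rw [abs_mul]
          have h3 : |(c h * starRingEnd ℂ (c h')).re| ≤ 1 := by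
            refine (Complex.abs_re_le_norm _).trans ?_
            rw [norm_mul, Complex.norm_conj]
            exact mul_le_one₀ (hc h) (norm_nonneg _) (hc h')
          calc _ ≤ 1 * (T * τ + 6 * q * ((H : ℝ) + 1)) :=
                mul_le_mul h3 (hS h hh h' hh') (abs_nonneg _) zero_le_one
            _ = _ := one_mul _
      _ = _ := by
          simp only [sum_const, card_range, nsmul_eq_mul]
          push_cast
          ring
  have h3 : ∑ m ∈ Ioc n (n + T), G m = ∑ m ∈ Ioc n (n + T), G m * (EB.D q m + 1) -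
      ∑ m ∈ Ioc n (n + T), G m * EB.D q m := by
    rw [← sum_sub_distrib]
    apply sum_congr rfl
    intro m _
    ring
  rw [FS_eq, ← hG, div_le_iff₀ hT0, h3]
  have h4 := neg_le_of_abs_le h2
  have hH1 : (1 : ℝ) ≤ (H : ℝ) + 1 := by
    have : (0 : ℝ) ≤ H := Nat.cast_nonneg _
    linarith
  have h5 : ((H : ℝ) + 1) ^ 2 ≤ ((H : ℝ) + 1) ^ 3 := pow_le_pow_right₀ hH1 (by norm_num)
  have h6 : ((H : ℝ) + 1) ^ 2 * (T * τ) ≤ 8 * ((H : ℝ) + 1) ^ 3 * (T * τ) := by
    have : 0 ≤ T * τ := by positivity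
    have h7 : ((H : ℝ) + 1) ^ 2 ≤ 8 * ((H : ℝ) + 1) ^ 3 := by
      have : 0 ≤ ((H : ℝ) + 1) ^ 3 := by positivity
      linarith
    gcongr
  have h8 : (q : ℝ) * ((H : ℝ) + 1) ^ 2 ≤ q * ((H : ℝ) + 1) ^ 3 := by gcongr
  have h9 : (FS lam H 1 (T / q) (n / q) c + 8 * ((H : ℝ) + 1) ^ 3 * (τ + q / T)) * T =
      T * FS lam H 1 (T / q) (n / q) c + 8 * ((H : ℝ) + 1) ^ 3 * (T * τ) +
        8 * (q * ((H : ℝ) + 1) ^ 3) := by
    have e : (q : ℝ) / T * T = q := div_mul_cancel₀ _ hT0.ne'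
    calc (FS lam H 1 (T / q) (n / q) c + 8 * ((H : ℝ) + 1) ^ 3 * (τ + q / T)) * T =
        T * FS lam H 1 (T / q) (n / q) c + 8 * ((H : ℝ) + 1) ^ 3 * (T * τ) +
        8 * ((H : ℝ) + 1) ^ 3 * (q / T * T) := by ring
      _ = _ := by rw [e]; ring
  rw [h9]
  have h10 : ((H : ℝ) + 1) ^ 2 * (6 * q * ((H : ℝ) + 1)) = 6 * (q * ((H : ℝ) + 1) ^ 3) := by ring
  have h11 : 0 ≤ q * ((H : ℝ) + 1) ^ 3 := by positivity
  nlinarith

end Pool.Agent.H83.LI
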