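import Pool.Agent.H87.QP.Targets

/-!
# No linear relation between the shifts of Liouville's function (MP_c59857_nt), theorem (LI):
definitions and statements

All logarithmic means are taken over a window `X : Wn`. The filters are chosen after the window.
-/

set_option autoImplicit false

namespace Pool.Agent.H83.LI

open Finset Pool.Agent.H18.MR Pool.Agent.H93.DE Pool.Agent.H6.N4D Pool.Agent.H93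
  Pool.Agent.H93.ES Pool.Agent.H28.NW Pool.Agent.H87.QP

/-! ## definitions -/

/-- the mean square of the filtered sequence `∑ c h lam (m + q h)`, `h ≤ H`, on the window
`(n, n + T]` -/
noncomputable def FS (lam : ℕ → ℝ) (H q T n : ℕ) (c : ℕ → ℂ) : ℝ :=
  (∑ m ∈ Ioc n (n + T), ‖∑ h ∈ range (H + 1), c h * ((lam (m + q * h) : ℝ) : ℂ)‖ ^ 2) / T

/-- the mean square distance on `(s, s + N]` from the sum of `R` exponentials -/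
noncomputable def ds (f : ℕ → ℂ) (R N s : ℕ) (b : ℕ → ℂ) (β : ℕ → ℝ) : ℝ :=
  (∑ h ∈ Icc 1 N, ‖f (s + h) - ∑ r ∈ range R,
    b r * Complex.exp (2 * Real.pi * Complex.I * ((β r : ℂ) * (h : ℂ)))‖ ^ 2) / (N : ℝ)

/-! ## statements -/

/-- RZF (helper93). The deterministic end: filters for the primes of one octave give sums of few
exponentials on the short windows. -/
def T_RZF : Prop := ∀ (H : ℕ) (τ : ℝ), 0 < τ → ∃ R B m₀ : ℕ, 1 ≤ B ∧ ∀ m w : ℕ, m₀ ≤ m →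
  2 * m ≤ w → ∀ f : ℕ → ℂ, (∀ n, ‖f n‖ ≤ 1) → ∀ c : ℕ → ℕ → ℂ,
  (∀ q, 1 ≤ ∑ h ∈ range (H + 1), ‖c q h‖ ^ 2) →
  ∀ n : ℕ, ∃ (b : ℕ → ℕ → ℂ) (β : ℕ → ℕ → ℝ), (∀ t r, ‖b t r‖ ≤ 1) ∧
  (∑ t ∈ range (2 ^ w), (∑ h ∈ Icc 1 (B * 2 ^ m), ‖f (n + t + h) - ∑ r ∈ range R,
    b t r * Complex.exp (2 * Real.pi * Complex.I * (β t r * h))‖ ^ 2) / (B * 2 ^ m)) / 2 ^ w ≤
  2 * ((∑ q ∈ oct m, (∑ t ∈ range (2 ^ w), ‖∑ h ∈ range (H + 1),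
    c q h * f (n + t + q * h)‖ ^ 2) / 2 ^ w) / (oct m).card) + τ

/-- DLF. Dilation: the multiples of `q`, filters. -/
def T_DLF : Prop := ∀ H : ℕ, ∃ C : ℝ, 0 < C ∧ ∀ (lam : ℕ → ℝ) (q T n : ℕ) (c : ℕ → ℂ),
  Lio lam → q.Prime → q ≤ T → (∀ h, ‖c h‖ ≤ 1) →
  FS lam H q T n c ≤ FS lam H 1 (T / q) (n / q) c +
    C * (∑ k ∈ Icc 1 H, |tq lam q T k n| + (q : ℝ) / T)

/-- SHW. Shorter windows: the filters of the long windows serve for the short ones. `P` is any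
set of filters. -/
def T_SHW : Prop := ∀ H : ℕ, ∃ C : ℝ, 0 < C ∧ ∀ (P : (ℕ → ℂ) → Prop) (lam : ℕ → ℝ) (L L' : ℕ)
  (X : Wn) (a : ℕ → ℕ → ℂ), 1 ≤ L' → L' ≤ L → (∀ n, |lam n| ≤ 1) →
  (∀ c, P c → ∀ h, ‖c h‖ ≤ 1) → (∀ n, P (a n)) →
  ∃ a' : ℕ → ℕ → ℂ, (∀ n, P (a' n)) ∧
    wlg X (fun n => FS lam H 1 L' n (a' n)) ≤ wlg X (fun n => FS lam H 1 L n (a n)) +
      C * (1 + Real.log L) + C * ((L' : ℝ) / L) * (1 + X.L)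

/-- SL1. Filters for the primes of one level. -/
def T_SL1 : Prop := ∀ (H W₀ : ℕ) (c : ℝ), 0 < c → ∃ (Ls W₁ : ℕ) (X₀ : ℝ), 1 ≤ Ls ∧
  ∀ (P : (ℕ → ℂ) → Prop) (X : Wn) (lam : ℕ → ℝ) (a : ℕ → ℕ → ℂ), X₀ ≤ X.L → Lio lam →
  (∀ c, P c → ∀ h, ‖c h‖ ≤ 1) → (∀ n, P (a n)) →
  wlg X (fun n => FS lam H 1 Ls n (a n)) ≤ c * X.L →
  ∃ (w : ℕ) (a' : ℕ → ℕ → ℕ → ℂ), W₀ ≤ w ∧ w ≤ W₁ ∧ (∀ q n, P (a' q n)) ∧
    ∑ q ∈ EB.QQ w, 1 / (q : ℝ) * wlg X (fun n => FS lam H q (2 ^ w) n (a' q n)) ≤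
      2 * c * (∑ q ∈ EB.QQ w, 1 / (q : ℝ)) * X.L

/-- SLO. Filters for the primes of one octave. -/
def T_SLO : Prop := ∀ (H m₀ : ℕ) (c : ℝ), 0 < c → ∃ (Ls W₁ : ℕ) (X₀ : ℝ), 1 ≤ Ls ∧
  ∀ (P : (ℕ → ℂ) → Prop) (X : Wn) (lam : ℕ → ℝ) (a : ℕ → ℕ → ℂ), X₀ ≤ X.L → Lio lam →
  (∀ c, P c → ∀ h, ‖c h‖ ≤ 1) → (∀ n, P (a n)) →
  wlg X (fun n => FS lam H 1 Ls n (a n)) ≤ c * X.L →
  ∃ (m w : ℕ) (a' : ℕ → ℕ → ℕ → ℂ), m₀ ≤ m ∧ 2 * m ≤ w ∧ w ≤ W₁ ∧ (∀ q n, P (a' q n)) ∧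
    ∑ q ∈ oct m, wlg X (fun n => FS lam H q (2 ^ w) n (a' q n)) ≤ 4 * c * (oct m).card * X.L

/-- GHA. Theorem (H0), windows. -/
def T_GHA : Prop := ∃ (c : ℝ) (K : ℕ), 0 < c ∧ c ≤ 1 ∧ ∀ R : ℕ, ∃ H₀ : ℕ, ∀ (X : Wn) (H : ℕ)
  (lam : ℕ → ℝ), H₀ ≤ H → K * Real.log H ≤ X.L → Lio lam →
  ∀ (b : ℕ → ℕ → ℂ) (β : ℕ → ℕ → ℝ), (∀ n r, ‖b n r‖ ≤ 1) →
    c * X.L < wlg X (fun n => ds (fun m => ((lam m : ℝ) : ℂ)) R H n (b n) (β n))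

/-- RZL. The theorem for functions with the properties of Liouville's function: absolute constants
`c` and `K`, all windows `X`, all complex filters chosen after the window. -/
def T_RZL : Prop := ∃ (c : ℝ) (K : ℕ), 0 < c ∧ ∀ H : ℕ, ∃ L₀ : ℕ, ∀ (X : Wn) (L : ℕ)
  (lam : ℕ → ℝ) (a : ℕ → ℕ → ℂ), L₀ ≤ L → K * Real.log L ≤ X.L → Lio lam →
  (∀ n, 1 ≤ ∑ h ∈ range (H + 1), ‖a n h‖ ^ 2) →
  c * X.L < wlg X (fun n => (∑ m ∈ Icc 1 L, ‖∑ h ∈ range (H + 1),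
    a n h * ((lam (n + m + h) : ℝ) : ℂ)‖ ^ 2) / (L : ℝ))

end Pool.Agent.H83.LI
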